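import Mathlib
import Pool.Agent.Q113.MS.All

/-!
# The minimum number of positive `k`-subsums for `n ≥ 10 k`
-/

set_option autoImplicit false

namespace Pool.Agent.Results.MP_4b686f_co.LinearRange

open Finset

/-- the number of `k`-element index sets with strictly positive sum -/
noncomputable def pos (k : ℕ) {n : ℕ} (x : Fin n → ℝ) : ℕ :=
  (((univ : Finset (Fin n)).powersetCard k).filter (fun S => 0 < ∑ i ∈ S, x i)).card

/-- For all `k ≥ 1` and `n ≥ 10 k`, `f(n,k) = C(n-1,k-1)`: the least possible number of positive
`k`-subsums of `n` real numbers with positive total. -/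
theorem result (n k : ℕ) (hk : 1 ≤ k) (hn : 10 * k ≤ n) :
    IsLeast {m : ℕ | ∃ x : Fin n → ℝ, 0 < ∑ i, x i ∧ pos k x = m} ((n - 1).choose (k - 1)) := by
  classical
  have hn0 : 0 < n := by omega
  have hnR : (0 : ℝ) < n := by exact_mod_cast hn0
  constructor
  · -- one coordinate `n`, the others `-1`
    set z : Fin n := ⟨0, hn0⟩ with hz
    set x : Fin n → ℝ := fun i => if i = z then (n : ℝ) else -1 with hx
    have hsum : ∀ S : Finset (Fin n), z ∈ S → ∑ i ∈ S, x i = (n : ℝ) - ((S.card : ℝ) - 1) := by
      intro S hS
      rw [← Finset.add_sum_erase S x hS]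
      have h1 : ∑ i ∈ S.erase z, x i = ∑ i ∈ S.erase z, (-1 : ℝ) :=
        Finset.sum_congr rfl fun i hi => by simp [hx, Finset.ne_of_mem_erase hi]
      rw [h1, Finset.sum_const, Finset.card_erase_of_mem hS, nsmul_eq_mul,
        Nat.cast_sub (Finset.card_pos.2 ⟨z, hS⟩)]
      simp only [hx, if_true]
      push_cast
      ring
    have hsum2 : ∀ S : Finset (Fin n), z ∉ S → ∑ i ∈ S, x i = -(S.card : ℝ) := by
      intro S hS
      have h1 : ∑ i ∈ S, x i = ∑ i ∈ S, (-1 : ℝ) :=
        Finset.sum_congr rfl fun i hi => by
          have : i ≠ z := fun h => hS (h ▸ hi)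
          simp [hx, this]
      rw [h1, Finset.sum_const, nsmul_eq_mul]
      ring
    refine ⟨x, ?_, ?_⟩
    · rw [hsum univ (mem_univ z), card_univ, Fintype.card_fin]
      linarith
    · have h1 : ((univ : Finset (Fin n)).powersetCard k).filter (fun S => 0 < ∑ i ∈ S, x i) =
          ((univ.erase z : Finset (Fin n)).powersetCard (k - 1)).image (insert z) := by
        ext S
        simp only [mem_filter, mem_powersetCard, mem_image]
        constructor
        · rintro ⟨⟨-, hS⟩, hpos⟩
          have hzS : z ∈ S := by
            by_contra h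
            rw [hsum2 S h] at hpos
            have : (0 : ℝ) ≤ (S.card : ℝ) := Nat.cast_nonneg _
            linarith
          refine ⟨S.erase z, ⟨?_, ?_⟩, Finset.insert_erase hzS⟩
          · exact Finset.erase_subset_erase _ (subset_univ _)
          · rw [Finset.card_erase_of_mem hzS, hS]
        · rintro ⟨B, ⟨hB1, hB2⟩, rfl⟩
          have hzB : z ∉ B := fun h => (Finset.mem_erase.1 (hB1 h)).1 rfl
          have hc : (insert z B).card = k := by
            rw [Finset.card_insert_of_notMem hzB, hB2]
            omega
          refine ⟨⟨subset_univ _, hc⟩, ?_⟩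
          rw [hsum _ (Finset.mem_insert_self z B), hc]
          have : (k : ℝ) ≤ n := by exact_mod_cast (by omega : k ≤ n)
          linarith
      unfold pos
      rw [h1, Finset.card_image_of_injOn, card_powersetCard, Finset.card_erase_of_mem (mem_univ z),
        card_univ, Fintype.card_fin]
      intro B hB C hC hBC
      have hzB : z ∉ B := fun h => (Finset.mem_erase.1 ((mem_powersetCard.1 hB).1 h)).1 rfl
      have hzC : z ∉ C := fun h => (Finset.mem_erase.1 ((mem_powersetCard.1 hC).1 h)).1 rfl
      have := congrArg (fun T => Finset.erase T z) hBC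
      simpa [Finset.erase_insert hzB, Finset.erase_insert hzC] using this
  · rintro m ⟨x, hx, rfl⟩
    set μ : ℝ := (∑ i, x i) / n with hμ
    have hμ0 : 0 < μ := div_pos hx hnR
    have hz : ∑ i : Fin n, (x i - μ) = 0 := by
      rw [Finset.sum_sub_distrib, Finset.sum_const, card_univ, Fintype.card_fin, nsmul_eq_mul, hμ,
        mul_div_cancel₀ _ hnR.ne', sub_self]
    have h := Pool.Agent.Q113.MS.mms10 (Fin n) univ k (fun i => x i - μ) hk
      (by rw [card_univ, Fintype.card_fin]; exact hn) hz.symm.le
    rw [card_univ, Fintype.card_fin] at h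
    refine h.trans (Finset.card_le_card ?_)
    intro S hS
    rw [mem_filter] at hS ⊢
    refine ⟨hS.1, ?_⟩
    have h2 := hS.2
    rw [Finset.sum_sub_distrib, Finset.sum_const, (mem_powersetCard.1 hS.1).2, nsmul_eq_mul] at h2
    have h3 : 0 < (k : ℝ) * μ := mul_pos (by exact_mod_cast hk) hμ0
    linarith

end Pool.Agent.Results.MP_4b686f_co.LinearRange
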